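import Pool.Agent.Helper40.CN.Spec

/-! Part NO0: `NN` for a trivial action. -/

set_option autoImplicit false

namespace Pool.Agent.Helper32.CN

open Pool.Agent.Helper40.CN

universe u

theorem orb {Γ : Type u} [Group Γ] (Δ : Subgroup Γ) (V : Type u) [AddCommGroup V]
    [DistribMulAction Γ V] (h : ∀ δ ∈ Δ, ∀ v : V, δ • v = v) (Y : Set V) :
    {v | ∃ δ ∈ Δ, ∃ y ∈ Y, v = δ • y} = Y := by
  ext v
  constructor
  · rintro ⟨δ, hδ, y, hy, rfl⟩
    rw [h δ hδ]
    exact hy
  · intro hv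
    exact ⟨1, one_mem _, v, hv, by rw [one_smul]⟩

theorem no0 : S_NO0.{u} := by
  intro Γ _ Δ V _ _ h U' U hle _ hfg
  obtain ⟨Y, hY, hU⟩ := hfg
  rw [orb Δ V h Y] at hU
  have h1 : (AddSubgroup.toIntSubmodule U).FG := by
    rw [Submodule.fg_def]
    refine ⟨Y, hY, ?_⟩
    apply AddSubgroup.toIntSubmodule.symm.injective
    rw [OrderIso.symm_apply_apply, hU]
    exact Submodule.span_int_eq_addSubgroupClosure Y
  have h2 : IsNoetherian ℤ (AddSubgroup.toIntSubmodule U) := isNoetherian_of_fg_of_noetherian _ h1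
  have h3 : (AddSubgroup.toIntSubmodule U').FG :=
    isNoetherian_submodule.1 h2 _ (AddSubgroup.toIntSubmodule.le_iff_le.2 hle)
  rw [Submodule.fg_def] at h3
  obtain ⟨Y', hY', h4⟩ := h3
  refine ⟨Y', hY', ?_⟩
  rw [orb Δ V h Y']
  have h5 := congrArg AddSubgroup.toIntSubmodule.symm h4
  rw [OrderIso.symm_apply_apply] at h5
  rw [← h5]
  exact Submodule.span_int_eq_addSubgroupClosure Y'

end Pool.Agent.Helper32.CN
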